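import Pool.Agent.W711.MX.RNDE1

set_option autoImplicit false

namespace Pool.Agent.W711.MX

open Finset Filter W872.MX

/-- the quadruples -/
def qd (t : ℕ) (i : Fin (t / 2)) (j : Fin 4) : Fin (2 * t) :=
  ⟨4 * i.1 + j.1, by have := i.2; have := j.2; omega⟩

theorem qd_inj (t : ℕ) : ∀ i j i' j', qd t i j = qd t i' j' → i = i' ∧ j = j' := by
  intro i j i' j' h
  have h1 : 4 * i.1 + j.1 = 4 * i'.1 + j'.1 := congrArg Fin.val h
  have h2 := j.2
  have h3 := j'.2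
  exact ⟨Fin.ext (by omega), Fin.ext (by omega)⟩

theorem qd_inj' (t : ℕ) (i : Fin (t / 2)) : Function.Injective (qd t i) :=
  fun j j' h => (qd_inj t _ _ _ _ h).2

/-- the sets of the quadruples -/
def Qs (t : ℕ) (i : Fin (t / 2)) : Finset (Fin (2 * t)) := univ.image (qd t i)

theorem Qs_card (t : ℕ) (i : Fin (t / 2)) : (Qs t i).card = 4 := by
  unfold Qs
  rw [card_image_of_injective _ (qd_inj' t i), card_univ, Fintype.card_fin]

theorem mem_Qs (t : ℕ) (i : Fin (t / 2)) (j : Fin 4) : qd t i j ∈ Qs t i :=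
  mem_image_of_mem _ (mem_univ _)

theorem good20 (t : ℕ) (R : SimpleGraph (Fin (2 * t))) (i : Fin (t / 2))
    (h : IsPath R (qd t i)) : HasRB R (Qs t i) 2 0 := by
  let g : (Fin 2 ⊕ Fin 0) × Bool → Fin 4 := fun x => match x with
    | (Sum.inl a, false) => if a = 0 then 0 else 2
    | (Sum.inl a, true) => if a = 0 then 1 else 3
    | (Sum.inr b, _) => b.elim0
  have hg : Function.Injective g := by
    rintro ⟨x | x, b⟩ ⟨y | y, c⟩ hxy
    · revert hxy
      fin_cases x <;> fin_cases y <;> cases b <;> cases c <;> simp [g]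
    · exact y.elim0
    · exact x.elim0
    · exact x.elim0
  refine ⟨⟨fun x => qd t i (g x), (qd_inj' t i).comp hg⟩, fun x => mem_Qs _ _ _, ?_,
    fun b => b.elim0⟩
  intro a
  fin_cases a
  · exact h.1
  · exact h.2.2.1

theorem good02 (t : ℕ) (R : SimpleGraph (Fin (2 * t))) (i : Fin (t / 2))
    (h : IsPath R (qd t i)) : HasRB R (Qs t i) 0 2 := by
  let g : (Fin 0 ⊕ Fin 2) × Bool → Fin 4 := fun x => match x with
    | (Sum.inr a, false) => if a = 0 then 0 else 1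
    | (Sum.inr a, true) => if a = 0 then 2 else 3
    | (Sum.inl b, _) => b.elim0
  have hg : Function.Injective g := by
    rintro ⟨x | x, b⟩ ⟨y | y, c⟩ hxy
    · exact x.elim0
    · exact x.elim0
    · exact y.elim0
    · revert hxy
      fin_cases x <;> fin_cases y <;> cases b <;> cases c <;> simp [g]
  refine ⟨⟨fun x => qd t i (g x), (qd_inj' t i).comp hg⟩, fun x => mem_Qs _ _ _,
    fun b => b.elim0, ?_⟩
  intro a
  fin_cases a
  · refine (SimpleGraph.compl_adj _ _ _).2 ⟨fun hh => ?_, h.2.2.2.1⟩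
    exact absurd ((qd_inj' t i) hh) (by simp [g])
  · refine (SimpleGraph.compl_adj _ _ _).2 ⟨fun hh => ?_, h.2.2.2.2.1⟩
    exact absurd ((qd_inj' t i) hh) (by simp [g])

theorem good11 (t : ℕ) (R : SimpleGraph (Fin (2 * t))) (i : Fin (t / 2))
    (h : IsPath R (qd t i)) : HasRB R (Qs t i) 1 1 := by
  let g : (Fin 1 ⊕ Fin 1) × Bool → Fin 4 := fun x => match x with
    | (Sum.inl _, false) => 1
    | (Sum.inl _, true) => 2
    | (Sum.inr _, false) => 0
    | (Sum.inr _, true) => 3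
  have hg : Function.Injective g := by
    rintro ⟨x | x, b⟩ ⟨y | y, c⟩ hxy
    · revert hxy
      fin_cases x; fin_cases y; cases b <;> cases c <;> simp [g]
    · revert hxy
      fin_cases x; fin_cases y; cases b <;> cases c <;> simp [g]
    · revert hxy
      fin_cases x; fin_cases y; cases b <;> cases c <;> simp [g]
    · revert hxy
      fin_cases x; fin_cases y; cases b <;> cases c <;> simp [g]
  refine ⟨⟨fun x => qd t i (g x), (qd_inj' t i).comp hg⟩, fun x => mem_Qs _ _ _,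
    fun _ => h.2.1, ?_⟩
  intro a
  refine (SimpleGraph.compl_adj _ _ _).2 ⟨fun hh => ?_, h.2.2.2.2.2⟩
  exact absurd ((qd_inj' t i) hh) (by simp [g])

theorem exists_sys (t : ℕ) (Q : Finset (Fin (2 * t))) (hQ : Q.card = 4) :
    ∃ σ : Sys (Fin (2 * t)) (t - 2), ∀ i, σ.a i ∈ Qᶜ ∧ σ.b i ∈ Qᶜ := by
  have hc : Qᶜ.card = (t - 2) + (t - 2) := by
    rw [card_compl, Fintype.card_fin, hQ]
    omega
  refine ⟨⟨fun i => Qᶜ.orderEmbOfFin hc (Fin.castAdd _ i),
    fun i => Qᶜ.orderEmbOfFin hc (Fin.natAdd _ i), ?_, ?_, ?_⟩, fun i =>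
    ⟨Finset.orderEmbOfFin_mem _ _ _, Finset.orderEmbOfFin_mem _ _ _⟩⟩
  · intro i j h
    exact Fin.castAdd_injective _ _ ((Qᶜ.orderEmbOfFin hc).injective h)
  · intro i j h
    exact Fin.natAdd_injective _ _ ((Qᶜ.orderEmbOfFin hc).injective h)
  · intro i j h
    have h1 := congrArg Fin.val ((Qᶜ.orderEmbOfFin hc).injective h)
    simp only [Fin.val_castAdd, Fin.val_natAdd] at h1
    have := i.2
    omega

theorem main : W872.MX.PartGAD → W872.MX.PartRNDE := by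
  intro hGAD
  set θ : ℝ := 1 - 1 / (Nat.card (SimpleGraph (Fin 4)) : ℝ) with hθ
  have hc1 : (1 : ℝ) ≤ (Nat.card (SimpleGraph (Fin 4)) : ℝ) := by
    exact_mod_cast Nat.card_pos (α := SimpleGraph (Fin 4))
  have hθ0 : 0 ≤ θ := by
    rw [hθ, sub_nonneg, div_le_one (by linarith)]
    exact hc1
  have hθ1 : θ < 1 := by
    have : 0 < 1 / (Nat.card (SimpleGraph (Fin 4)) : ℝ) := by positivity
    linarith
  have key : ∀ t : ℕ, ((t - 2 : ℕ) : ℝ) ^ 2 * (1 / 2 : ℝ) ^ ((t - 2 + 1) / 2) ≤ 1 →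
      1 - (θ ^ (t / 2) + ((t / 2 : ℕ) : ℝ) * (2 * (((t - 2 : ℕ) : ℝ) *
        (((t - 2 : ℕ) : ℝ) ^ 2 * (1 / 2 : ℝ) ^ ((t - 2 + 1) / 2))))) ≤
        ((Nat.card {R : SimpleGraph (Fin (2 * t)) // PM R univ} : ℕ) : ℝ) /
          ((Nat.card (SimpleGraph (Fin (2 * t))) : ℕ) : ℝ) := by
    intro t hq
    classical
    have hfin : Finite (SimpleGraph (Fin (2 * t))) := inferInstance
    let _ : Fintype (SimpleGraph (Fin (2 * t))) := Fintype.ofFinite _
    have hpos : (0 : ℝ) < (Nat.card (SimpleGraph (Fin (2 * t))) : ℝ) := by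
      exact_mod_cast Nat.card_pos
    rw [le_div_iff₀ hpos]
    set β : ℝ := ((t - 2 : ℕ) : ℝ) *
        (((t - 2 : ℕ) : ℝ) ^ 2 * (1 / 2 : ℝ) ^ ((t - 2 + 1) / 2)) with hβ
    have hb1 : ∀ i : Fin (t / 2),
        (Nat.card {R : SimpleGraph (Fin (2 * t)) // ¬ HasRB R (Qs t i)ᶜ (t - 2) 0} : ℝ) ≤
          β * (Nat.card (SimpleGraph (Fin (2 * t))) : ℝ) := by
      intro i
      obtain ⟨σ, hσ⟩ := exists_sys t (Qs t i) (Qs_card t i)
      exact bad_le σ _ hσ hq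
    have hsym : ∀ i : Fin (t / 2),
        Nat.card {R : SimpleGraph (Fin (2 * t)) // ¬ HasRB R (Qs t i)ᶜ 0 (t - 2)} ≤
        Nat.card {R : SimpleGraph (Fin (2 * t)) // ¬ HasRB R (Qs t i)ᶜ (t - 2) 0} := by
      intro i
      refine Nat.card_le_card_of_injective
        (fun x => ⟨x.1ᶜ, fun h => x.2 (hasRB_compl' _ _ x.1 h)⟩) ?_
      rintro ⟨R, hR⟩ ⟨R', hR'⟩ h
      have h1 : Rᶜ = R'ᶜ := congrArg Subtype.val h
      exact Subtype.ext (compl_injective h1)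
    have hb2 : ∀ i : Fin (t / 2),
        (Nat.card {R : SimpleGraph (Fin (2 * t)) // ¬ HasRB R (Qs t i)ᶜ 0 (t - 2)} : ℝ) ≤
          β * (Nat.card (SimpleGraph (Fin (2 * t))) : ℝ) := by
      intro i
      refine le_trans ?_ (hb1 i)
      exact_mod_cast hsym i
    have hnp := path_le (qd t) (qd_inj t) (t / 2) le_rfl
    rw [← hθ] at hnp
    have hc : (Nat.card (SimpleGraph (Fin (2 * t)))) ≤
        Nat.card {R : SimpleGraph (Fin (2 * t)) // PM R univ} +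
        (Nat.card {R : SimpleGraph (Fin (2 * t)) // NP (qd t) (t / 2) R} +
        ∑ i : Fin (t / 2),
          (Nat.card {R : SimpleGraph (Fin (2 * t)) // ¬ HasRB R (Qs t i)ᶜ (t - 2) 0} +
          Nat.card {R : SimpleGraph (Fin (2 * t)) // ¬ HasRB R (Qs t i)ᶜ 0 (t - 2)})) := by
      simp only [Nat.card_eq_fintype_card, Fintype.card_subtype]
      rw [← card_univ]
      have hcov : (univ : Finset (SimpleGraph (Fin (2 * t)))) ⊆
          univ.filter (fun R => PM R univ) ∪ (univ.filter (fun R => NP (qd t) (t / 2) R) ∪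
          (univ : Finset (Fin (t / 2))).biUnion (fun i =>
            univ.filter (fun R => ¬ HasRB R (Qs t i)ᶜ (t - 2) 0) ∪
            univ.filter (fun R => ¬ HasRB R (Qs t i)ᶜ 0 (t - 2)))) := by
        intro R _
        simp only [mem_union, mem_filter, mem_univ, true_and, mem_biUnion]
        by_cases h0 : NP (qd t) (t / 2) R
        · exact Or.inr (Or.inl h0)
        · unfold NP at h0
          push Not at h0
          obtain ⟨i, -, hi⟩ := h0
          by_cases h1 : HasRB R (Qs t i)ᶜ (t - 2) 0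
          · by_cases h2 : HasRB R (Qs t i)ᶜ 0 (t - 2)
            · exact Or.inl (hGAD t R (Qs t i) (Qs_card t i) (good20 t R i hi)
                (good11 t R i hi) (good02 t R i hi) h1 h2)
            · exact Or.inr (Or.inr ⟨i, Or.inr h2⟩)
          · exact Or.inr (Or.inr ⟨i, Or.inl h1⟩)
      refine (card_le_card hcov).trans ((card_union_le _ _).trans
        (Nat.add_le_add_left ((card_union_le _ _).trans
        (Nat.add_le_add_left (card_biUnion_le.trans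
          (sum_le_sum fun i _ => card_union_le _ _)) _)) _))
    have hc' : (Nat.card (SimpleGraph (Fin (2 * t))) : ℝ) ≤
        (Nat.card {R : SimpleGraph (Fin (2 * t)) // PM R univ} : ℝ) +
        ((Nat.card {R : SimpleGraph (Fin (2 * t)) // NP (qd t) (t / 2) R} : ℝ) +
        ∑ i : Fin (t / 2),
          ((Nat.card {R : SimpleGraph (Fin (2 * t)) // ¬ HasRB R (Qs t i)ᶜ (t - 2) 0} : ℝ) +
          (Nat.card {R : SimpleGraph (Fin (2 * t)) //
            ¬ HasRB R (Qs t i)ᶜ 0 (t - 2)} : ℝ))) := by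
      exact_mod_cast hc
    have hs : ∑ i : Fin (t / 2),
          ((Nat.card {R : SimpleGraph (Fin (2 * t)) // ¬ HasRB R (Qs t i)ᶜ (t - 2) 0} : ℝ) +
          (Nat.card {R : SimpleGraph (Fin (2 * t)) // ¬ HasRB R (Qs t i)ᶜ 0 (t - 2)} : ℝ)) ≤
        ((t / 2 : ℕ) : ℝ) * (2 * β * (Nat.card (SimpleGraph (Fin (2 * t))) : ℝ)) := by
      have h1 : ∀ i ∈ (univ : Finset (Fin (t / 2))),
          ((Nat.card {R : SimpleGraph (Fin (2 * t)) // ¬ HasRB R (Qs t i)ᶜ (t - 2) 0} : ℝ) +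
          (Nat.card {R : SimpleGraph (Fin (2 * t)) // ¬ HasRB R (Qs t i)ᶜ 0 (t - 2)} : ℝ)) ≤
          2 * β * (Nat.card (SimpleGraph (Fin (2 * t))) : ℝ) := by
        intro i _
        linarith [hb1 i, hb2 i]
      refine (sum_le_sum h1).trans (le_of_eq ?_)
      rw [sum_const, card_univ, Fintype.card_fin, nsmul_eq_mul]
    have hfinal : (1 - (θ ^ (t / 2) + ((t / 2 : ℕ) : ℝ) * (2 * β))) *
        (Nat.card (SimpleGraph (Fin (2 * t))) : ℝ) =
        (Nat.card (SimpleGraph (Fin (2 * t))) : ℝ) -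
        θ ^ (t / 2) * (Nat.card (SimpleGraph (Fin (2 * t))) : ℝ) -
        ((t / 2 : ℕ) : ℝ) * (2 * β * (Nat.card (SimpleGraph (Fin (2 * t))) : ℝ)) := by ring
    rw [hfinal]
    linarith
  have key2 : ∀ t : ℕ, ((Nat.card {R : SimpleGraph (Fin (2 * t)) // PM R univ} : ℕ) : ℝ) /
          ((Nat.card (SimpleGraph (Fin (2 * t))) : ℕ) : ℝ) ≤ 1 := by
    intro r
    have hpos : (0 : ℝ) < (Nat.card (SimpleGraph (Fin (2 * r))) : ℝ) := by
      exact_mod_cast Nat.card_pos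
    rw [div_le_one hpos]
    have : Nat.card {R : SimpleGraph (Fin (2 * r)) // PM R univ} ≤
        Nat.card (SimpleGraph (Fin (2 * r))) :=
      Nat.card_le_card_of_injective
        (fun x : {R : SimpleGraph (Fin (2 * r)) // PM R univ} => x.1) Subtype.val_injective
    exact_mod_cast this
  have hm : Tendsto (fun t : ℕ => (t - 2 + 1) / 2) atTop atTop :=
    (Nat.tendsto_div_const_atTop (by norm_num)).comp
      ((tendsto_add_atTop_nat 1).comp (tendsto_sub_atTop_nat 2))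
  have hlim : Tendsto (fun t : ℕ => ((t / 2 : ℕ) : ℝ) * (2 * (((t - 2 : ℕ) : ℝ) *
        (((t - 2 : ℕ) : ℝ) ^ 2 * (1 / 2 : ℝ) ^ ((t - 2 + 1) / 2))))) atTop (nhds 0) := by
    have h1 : Tendsto (fun n : ℕ => (n : ℝ) ^ 4 * (1 / 2 : ℝ) ^ n) atTop (nhds 0) :=
      tendsto_pow_const_mul_const_pow_of_abs_lt_one 4 (by rw [abs_of_pos] <;> norm_num)
    have h3 := (h1.comp hm).const_mul 32
    rw [mul_zero] at h3
    refine squeeze_zero (fun r => by positivity) (fun t => ?_) h3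
    simp only [Function.comp]
    set m := (t - 2 + 1) / 2 with hmdef
    have h4 : (((t - 2 : ℕ) : ℝ)) ≤ 2 * (m : ℝ) := by
      have : t - 2 ≤ 2 * m := by omega
      exact_mod_cast this
    have h4' : (((t / 2 : ℕ) : ℝ)) ≤ (m : ℝ) + 1 := by
      have : t / 2 ≤ m + 1 := by omega
      exact_mod_cast this
    have h6 : (0 : ℝ) ≤ (1 / 2 : ℝ) ^ m := by positivity
    have h5 : ((t - 2 : ℕ) : ℝ) ^ 3 ≤ (2 * (m : ℝ)) ^ 3 :=
      pow_le_pow_left₀ (by positivity) h4 3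
    have h7 : ((t / 2 : ℕ) : ℝ) * ((t - 2 : ℕ) : ℝ) ^ 3 ≤
        ((m : ℝ) + 1) * (2 * (m : ℝ)) ^ 3 :=
      mul_le_mul h4' h5 (by positivity) (by positivity)
    have h8 : ((m : ℝ) + 1) * (2 * (m : ℝ)) ^ 3 ≤ 16 * (m : ℝ) ^ 4 := by
      rcases Nat.eq_zero_or_pos m with h0 | h0
      · rw [h0]; norm_num
      · have h01 : (1 : ℝ) ≤ (m : ℝ) := by exact_mod_cast h0
        have h02 : (0 : ℝ) ≤ (m : ℝ) ^ 3 := by positivity
        nlinarith [mul_le_mul_of_nonneg_right h01 h02]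
    have h9 := mul_le_mul_of_nonneg_right (h7.trans h8) h6
    calc ((t / 2 : ℕ) : ℝ) * (2 * (((t - 2 : ℕ) : ℝ) *
        (((t - 2 : ℕ) : ℝ) ^ 2 * (1 / 2 : ℝ) ^ m)))
        = 2 * (((t / 2 : ℕ) : ℝ) * ((t - 2 : ℕ) : ℝ) ^ 3 * (1 / 2 : ℝ) ^ m) := by ring
      _ ≤ 2 * (16 * (m : ℝ) ^ 4 * (1 / 2 : ℝ) ^ m) := by linarith
      _ = 32 * ((m : ℝ) ^ 4 * (1 / 2 : ℝ) ^ m) := by ring
  have hlim2 : Tendsto (fun t : ℕ => θ ^ (t / 2)) atTop (nhds 0) :=
    (tendsto_pow_atTop_nhds_zero_of_lt_one hθ0 hθ1).comp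
      (Nat.tendsto_div_const_atTop (by norm_num))
  have hev : ∀ᶠ t : ℕ in atTop,
      ((t - 2 : ℕ) : ℝ) ^ 2 * (1 / 2 : ℝ) ^ ((t - 2 + 1) / 2) ≤ 1 := by
    have h1 : ∀ᶠ t : ℕ in atTop, ((t / 2 : ℕ) : ℝ) * (2 * (((t - 2 : ℕ) : ℝ) *
        (((t - 2 : ℕ) : ℝ) ^ 2 * (1 / 2 : ℝ) ^ ((t - 2 + 1) / 2)))) < 1 :=
      hlim.eventually (gt_mem_nhds (by norm_num))
    filter_upwards [h1, eventually_ge_atTop 3] with t hr hr1
    have h2 : (1 : ℝ) ≤ ((t - 2 : ℕ) : ℝ) := by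
      have : 1 ≤ t - 2 := by omega
      exact_mod_cast this
    have h2' : (1 : ℝ) ≤ ((t / 2 : ℕ) : ℝ) := by
      have : 1 ≤ t / 2 := by omega
      exact_mod_cast this
    have h3 : (0 : ℝ) ≤ ((t - 2 : ℕ) : ℝ) ^ 2 * (1 / 2 : ℝ) ^ ((t - 2 + 1) / 2) := by
      positivity
    have h4 : ((t - 2 : ℕ) : ℝ) ^ 2 * (1 / 2 : ℝ) ^ ((t - 2 + 1) / 2) ≤
        ((t - 2 : ℕ) : ℝ) * (((t - 2 : ℕ) : ℝ) ^ 2 * (1 / 2 : ℝ) ^ ((t - 2 + 1) / 2)) :=
      le_mul_of_one_le_left h3 h2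
    have h5 : 2 * (((t - 2 : ℕ) : ℝ) *
        (((t - 2 : ℕ) : ℝ) ^ 2 * (1 / 2 : ℝ) ^ ((t - 2 + 1) / 2))) ≤
        ((t / 2 : ℕ) : ℝ) * (2 * (((t - 2 : ℕ) : ℝ) *
        (((t - 2 : ℕ) : ℝ) ^ 2 * (1 / 2 : ℝ) ^ ((t - 2 + 1) / 2)))) :=
      le_mul_of_one_le_left (by positivity) h2'
    linarith
  have hlow : Tendsto (fun t : ℕ =>
      1 - (θ ^ (t / 2) + ((t / 2 : ℕ) : ℝ) * (2 * (((t - 2 : ℕ) : ℝ) *
        (((t - 2 : ℕ) : ℝ) ^ 2 * (1 / 2 : ℝ) ^ ((t - 2 + 1) / 2)))))) atTop (nhds 1) := by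
    have := (hlim2.add hlim).const_sub 1
    simpa using this
  refine tendsto_of_tendsto_of_tendsto_of_le_of_le' hlow tendsto_const_nhds ?_
    (Eventually.of_forall key2)
  filter_upwards [hev] with t ht
  exact key t ht

end Pool.Agent.W711.MX
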