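import Pool.Agent.W872.MX.StmB
import Pool.Agent.W369.MX.RND

/-!
# Part RNDE of project MX: almost all colourings of even order have property `PM`
-/

set_option autoImplicit false

namespace Pool.Agent.W711.MX

open Finset Filter W872.MX

/-- two disjoint injective families of vertices -/
structure Sys (V : Type) (r : ℕ) where
  a : Fin r → V
  b : Fin r → V
  ha : Function.Injective a
  hb : Function.Injective b
  hab : ∀ i j, a i ≠ b j

theorem hasRB_of_inj {V : Type} {r : ℕ} (σ : Sys V r) (T : Finset V)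
    (hT : ∀ i, σ.a i ∈ T ∧ σ.b i ∈ T) (R : SimpleGraph V) (f : Fin r → Fin r)
    (hf : Function.Injective f) (h : ∀ i, R.Adj (σ.a i) (σ.b (f i))) : HasRB R T r 0 := by
  refine ⟨⟨fun x => match x with
    | (Sum.inl i, false) => σ.a i
    | (Sum.inl i, true) => σ.b (f i)
    | (Sum.inr j, _) => j.elim0, ?_⟩, ?_, fun i => h i, fun j => j.elim0⟩
  · rintro ⟨i | i, b⟩ ⟨j | j, c⟩ hij
    · cases b <;> cases c
      · have : i = j := σ.ha hij
        rw [this]
      · exact absurd hij (σ.hab _ _)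
      · exact absurd hij.symm (σ.hab _ _)
      · have : i = j := hf (σ.hb hij)
        rw [this]
    · exact j.elim0
    · exact i.elim0
    · exact i.elim0
  · rintro ⟨i | i, b⟩
    · cases b
      · exact (hT i).1
      · exact (hT (f i)).2
    · exact i.elim0

/-- there are no edges between `X` and `Y` -/
def NoEdge {V : Type} {r : ℕ} (σ : Sys V r) (R : SimpleGraph V) (X Y : Finset (Fin r)) : Prop :=
  ∀ i ∈ X, ∀ j ∈ Y, ¬ R.Adj (σ.a i) (σ.b j)

theorem exists_of_not {V : Type} {r : ℕ} (σ : Sys V r) (T : Finset V)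
    (hT : ∀ i, σ.a i ∈ T ∧ σ.b i ∈ T) (R : SimpleGraph V) (h : ¬ HasRB R T r 0) :
    ∃ X Y : Finset (Fin r), 1 ≤ X.card ∧ X.card ≤ r ∧ Y.card = r + 1 - X.card ∧
      NoEdge σ R X Y := by
  classical
  set t : Fin r → Finset (Fin r) := fun i => univ.filter (fun j => R.Adj (σ.a i) (σ.b j))
    with ht
  have h1 : ¬ ∀ s : Finset (Fin r), s.card ≤ (s.biUnion t).card := by
    intro h2
    obtain ⟨f, hf, hft⟩ := (Finset.all_card_le_biUnion_card_iff_exists_injective t).1 h2
    refine h (hasRB_of_inj σ T hT R f hf fun i => ?_)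
    have := hft i
    simpa [ht] using this
  push Not at h1
  obtain ⟨X, hX⟩ := h1
  have hXr : X.card ≤ r := by
    have := card_le_univ X
    rwa [Fintype.card_fin] at this
  have hc : r + 1 - X.card ≤ (X.biUnion t)ᶜ.card := by
    rw [card_compl, Fintype.card_fin]
    omega
  obtain ⟨Y, hY, hYc⟩ := Finset.exists_subset_card_eq hc
  refine ⟨X, Y, by omega, hXr, hYc, fun i hi j hj hij => ?_⟩
  have h3 := hY hj
  rw [mem_compl, mem_biUnion] at h3
  exact h3 ⟨i, hi, by simp [ht, hij]⟩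

/-- the graph of a set of pairs -/
def Sg {V : Type} {r : ℕ} (σ : Sys V r) (S : Finset (Fin r × Fin r)) : SimpleGraph V :=
  SimpleGraph.fromRel (fun u v => ∃ p ∈ S, u = σ.a p.1 ∧ v = σ.b p.2)

theorem Sg_adj {V : Type} {r : ℕ} (σ : Sys V r) (S : Finset (Fin r × Fin r)) (i j : Fin r) :
    (Sg σ S).Adj (σ.a i) (σ.b j) ↔ (i, j) ∈ S := by
  unfold Sg
  rw [SimpleGraph.fromRel_adj]
  constructor
  · rintro ⟨-, ⟨p, hp, h1, h2⟩ | ⟨p, hp, h1, h2⟩⟩
    · rw [σ.ha h1, σ.hb h2]
      exact hp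
    · exact absurd h1.symm (σ.hab _ _)
  · intro h
    exact ⟨σ.hab _ _, Or.inl ⟨(i, j), h, rfl, rfl⟩⟩

theorem count {V : Type} [Fintype V] {r : ℕ} (σ : Sys V r) (X Y : Finset (Fin r)) :
    Nat.card {R : SimpleGraph V // NoEdge σ R X Y} * 2 ^ (X.card * Y.card) ≤
      Nat.card (SimpleGraph V) := by
  classical
  have h1 : Nat.card {S // S ∈ (X ×ˢ Y).powerset} = 2 ^ (X.card * Y.card) := by
    rw [Nat.card_eq_fintype_card, Fintype.card_coe, card_powerset, card_product]
  rw [← h1, ← Nat.card_prod]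
  refine Nat.card_le_card_of_injective
    (fun x : {R : SimpleGraph V // NoEdge σ R X Y} × {S // S ∈ (X ×ˢ Y).powerset} =>
      x.1.1 ⊔ Sg σ x.2.1) ?_
  rintro ⟨⟨R, hR⟩, ⟨S, hS⟩⟩ ⟨⟨R', hR'⟩, ⟨S', hS'⟩⟩ h
  have h : R ⊔ Sg σ S = R' ⊔ Sg σ S' := h
  have key : ∀ (R : SimpleGraph V) (S : Finset (Fin r × Fin r)), NoEdge σ R X Y →
      S ∈ (X ×ˢ Y).powerset → ∀ i j, (i, j) ∈ S ↔ (i ∈ X ∧ j ∈ Y) ∧
        (R ⊔ Sg σ S).Adj (σ.a i) (σ.b j) := by
    intro R S hR hS i j
    rw [mem_powerset] at hS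
    constructor
    · intro hij
      refine ⟨mem_product.1 (hS hij), ?_⟩
      rw [SimpleGraph.sup_adj]
      exact Or.inr ((Sg_adj σ S i j).2 hij)
    · rintro ⟨⟨hi, hj⟩, ha⟩
      rw [SimpleGraph.sup_adj] at ha
      rcases ha with ha | ha
      · exact absurd ha (hR i hi j hj)
      · exact (Sg_adj σ S i j).1 ha
  have hSS : S = S' := by
    ext ⟨i, j⟩
    rw [key R S hR hS i j, key R' S' hR' hS' i j, h]
  subst hSS
  have key2 : ∀ (R : SimpleGraph V), NoEdge σ R X Y → ∀ u v,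
      R.Adj u v ↔ (R ⊔ Sg σ S).Adj u v ∧ ¬ (Sg σ S).Adj u v := by
    intro R hR u v
    rw [mem_powerset] at hS
    rw [SimpleGraph.sup_adj]
    constructor
    · intro huv
      refine ⟨Or.inl huv, fun hs => ?_⟩
      unfold Sg at hs
      rw [SimpleGraph.fromRel_adj] at hs
      rcases hs with ⟨-, ⟨p, hp, h1, h2⟩ | ⟨p, hp, h1, h2⟩⟩
      · have := mem_product.1 (hS hp)
        rw [h1, h2] at huv
        exact hR _ this.1 _ this.2 huv
      · have := mem_product.1 (hS hp)
        rw [h1, h2] at huv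
        exact hR _ this.1 _ this.2 huv.symm
    · rintro ⟨h1 | h1, h2⟩
      · exact h1
      · exact absurd h1 h2
  have hRR : R = R' := by
    ext u v
    rw [key2 R hR u v, key2 R' hR' u v, h]
  subst hRR
  rfl

/-- the proportion of graphs without a matching of size `r` -/
theorem bad_le {V : Type} [Fintype V] {r : ℕ} (σ : Sys V r) (T : Finset V)
    (hT : ∀ i, σ.a i ∈ T ∧ σ.b i ∈ T) (hq : (r : ℝ) ^ 2 * (1 / 2 : ℝ) ^ ((r + 1) / 2) ≤ 1) :
    (Nat.card {R : SimpleGraph V // ¬ HasRB R T r 0} : ℝ) ≤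
      ((r : ℝ) * ((r : ℝ) ^ 2 * (1 / 2 : ℝ) ^ ((r + 1) / 2))) *
        (Nat.card (SimpleGraph V) : ℝ) := by
  classical
  haveI : Fintype (SimpleGraph V) := Fintype.ofFinite _
  have hsub : (univ.filter (fun R : SimpleGraph V => ¬ HasRB R T r 0)) ⊆
      (Icc 1 r).biUnion (fun s =>
        (powersetCard s univ ×ˢ powersetCard (r + 1 - s) univ).biUnion (fun p =>
          univ.filter (fun R : SimpleGraph V => NoEdge σ R p.1 p.2))) := by
    intro R hR
    rw [mem_filter] at hR
    obtain ⟨X, Y, h1, h2, h3, h4⟩ := exists_of_not σ T hT R hR.2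
    rw [mem_biUnion]
    refine ⟨X.card, mem_Icc.2 ⟨h1, h2⟩, ?_⟩
    rw [mem_biUnion]
    refine ⟨(X, Y), ?_, ?_⟩
    · rw [mem_product, mem_powersetCard, mem_powersetCard]
      exact ⟨⟨subset_univ _, rfl⟩, ⟨subset_univ _, h3⟩⟩
    · rw [mem_filter]
      exact ⟨mem_univ _, h4⟩
  have hcount : ∀ X Y : Finset (Fin r),
      ((univ.filter (fun R : SimpleGraph V => NoEdge σ R X Y)).card : ℝ) ≤
        (Nat.card (SimpleGraph V) : ℝ) * (1 / 2 : ℝ) ^ (X.card * Y.card) := by
    intro X Y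
    have h1 := count σ X Y
    rw [Nat.card_eq_fintype_card, Fintype.card_subtype] at h1
    have h2 : ((univ.filter (fun R : SimpleGraph V => NoEdge σ R X Y)).card : ℝ) *
        2 ^ (X.card * Y.card) ≤ (Nat.card (SimpleGraph V) : ℝ) := by
      exact_mod_cast h1
    have h3 : (0 : ℝ) < (1 / 2 : ℝ) ^ (X.card * Y.card) := by positivity
    have h4 := mul_le_mul_of_nonneg_right h2 h3.le
    refine le_trans (le_of_eq ?_) h4
    rw [mul_assoc, ← mul_pow]
    norm_num
  have h5 : (Nat.card {R : SimpleGraph V // ¬ HasRB R T r 0} : ℝ) =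
      ((univ.filter (fun R : SimpleGraph V => ¬ HasRB R T r 0)).card : ℝ) := by
    rw [Nat.card_eq_fintype_card, Fintype.card_subtype]
  rw [h5]
  have h6 : ((univ.filter (fun R : SimpleGraph V =>
      ¬ HasRB R T r 0)).card : ℝ) ≤
      ∑ s ∈ Icc 1 r, ∑ p ∈ powersetCard s (univ : Finset (Fin r)) ×ˢ
        powersetCard (r + 1 - s) (univ : Finset (Fin r)),
        ((univ.filter (fun R : SimpleGraph V => NoEdge σ R p.1 p.2)).card : ℝ) := by
    have h7 := (card_le_card hsub).trans card_biUnion_le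
    have h8 : ∀ s ∈ Icc 1 r, ((powersetCard s (univ : Finset (Fin r)) ×ˢ
        powersetCard (r + 1 - s) (univ : Finset (Fin r))).biUnion (fun p =>
          univ.filter (fun R : SimpleGraph V => NoEdge σ R p.1 p.2))).card ≤
        ∑ p ∈ powersetCard s (univ : Finset (Fin r)) ×ˢ
        powersetCard (r + 1 - s) (univ : Finset (Fin r)),
        (univ.filter (fun R : SimpleGraph V => NoEdge σ R p.1 p.2)).card :=
      fun s _ => card_biUnion_le
    have h9 := h7.trans (sum_le_sum h8)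
    exact_mod_cast h9
  refine h6.trans ?_
  have h10 : ∀ s ∈ Icc 1 r, ∑ p ∈ powersetCard s (univ : Finset (Fin r)) ×ˢ
        powersetCard (r + 1 - s) (univ : Finset (Fin r)),
        ((univ.filter (fun R : SimpleGraph V => NoEdge σ R p.1 p.2)).card : ℝ) ≤
      ((r : ℝ) ^ 2 * (1 / 2 : ℝ) ^ ((r + 1) / 2)) *
        (Nat.card (SimpleGraph V) : ℝ) := by
    intro s hs
    rw [mem_Icc] at hs
    have h11 : ∑ p ∈ powersetCard s (univ : Finset (Fin r)) ×ˢ
        powersetCard (r + 1 - s) (univ : Finset (Fin r)),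
        ((univ.filter (fun R : SimpleGraph V => NoEdge σ R p.1 p.2)).card : ℝ) ≤
        ∑ p ∈ powersetCard s (univ : Finset (Fin r)) ×ˢ
        powersetCard (r + 1 - s) (univ : Finset (Fin r)),
          (Nat.card (SimpleGraph V) : ℝ) * (1 / 2 : ℝ) ^ (s * (r + 1 - s)) := by
      refine sum_le_sum fun p hp => ?_
      rw [mem_product, mem_powersetCard, mem_powersetCard] at hp
      have := hcount p.1 p.2
      rwa [hp.1.2, hp.2.2] at this
    refine h11.trans ?_
    rw [sum_const, card_product, card_powersetCard, card_powersetCard, card_univ,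
      Fintype.card_fin, nsmul_eq_mul]
    push_cast
    have h12 := W369.MX.term_le r s hs.1 hs.2 hq
    have h13 : (0 : ℝ) ≤ (Nat.card (SimpleGraph V) : ℝ) := by positivity
    have h14 := mul_le_mul_of_nonneg_right h12 h13
    refine le_trans (le_of_eq ?_) h14
    ring
  refine (sum_le_sum h10).trans (le_of_eq ?_)
  rw [sum_const, Nat.card_Icc, nsmul_eq_mul]
  simp only [add_tsub_cancel_right]
  ring


end Pool.Agent.W711.MX
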