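import Pool.Agent.W711.MX.RNDE0

set_option autoImplicit false

namespace Pool.Agent.W711.MX

open Finset Filter W872.MX

theorem hasRB_compl' {V : Type} (T : Finset V) (r : ℕ) (R : SimpleGraph V)
    (h : HasRB Rᶜ T r 0) : HasRB R T 0 r := by
  obtain ⟨f, h1, h2, -⟩ := h
  refine ⟨⟨fun x => f (x.1.swap, x.2), ?_⟩, fun _ => h1 _, fun i => i.elim0,
    fun b => h2 b⟩
  rintro ⟨x, b⟩ ⟨y, c⟩ hxy
  have h3 := f.injective hxy
  rw [Prod.mk.injEq] at h3
  rw [Prod.mk.injEq]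
  exact ⟨Sum.swap_leftInverse.injective h3.1, h3.2⟩

/-- the labelled path on the four vertices `q 0, q 1, q 2, q 3` is induced -/
def IsPath {V : Type} (R : SimpleGraph V) (q : Fin 4 → V) : Prop :=
  R.Adj (q 0) (q 1) ∧ R.Adj (q 1) (q 2) ∧ R.Adj (q 2) (q 3) ∧
    ¬ R.Adj (q 0) (q 2) ∧ ¬ R.Adj (q 1) (q 3) ∧ ¬ R.Adj (q 0) (q 3)

/-- replace the graph on the range of `q` by the labelled path -/
def Modi {V : Type} (R : SimpleGraph V) (q : Fin 4 → V) : SimpleGraph V :=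
  SimpleGraph.fromRel (fun u v => ((∀ i j, ¬ (u = q i ∧ v = q j)) ∧ R.Adj u v) ∨
    (u = q 0 ∧ v = q 1) ∨ (u = q 1 ∧ v = q 2) ∨ (u = q 2 ∧ v = q 3))

theorem modi_off {V : Type} (R : SimpleGraph V) (q : Fin 4 → V) (u v : V)
    (h : ∀ i j, ¬ (u = q i ∧ v = q j)) : (Modi R q).Adj u v ↔ R.Adj u v := by
  unfold Modi
  rw [SimpleGraph.fromRel_adj]
  constructor
  · rintro ⟨-, (⟨-, h2⟩ | ⟨h1, h2⟩ | ⟨h1, h2⟩ | ⟨h1, h2⟩) |
      (⟨-, h2⟩ | ⟨h1, h2⟩ | ⟨h1, h2⟩ | ⟨h1, h2⟩)⟩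
    · exact h2
    · exact absurd ⟨h1, h2⟩ (h _ _)
    · exact absurd ⟨h1, h2⟩ (h _ _)
    · exact absurd ⟨h1, h2⟩ (h _ _)
    · exact h2.symm
    · exact absurd ⟨h2, h1⟩ (h _ _)
    · exact absurd ⟨h2, h1⟩ (h _ _)
    · exact absurd ⟨h2, h1⟩ (h _ _)
  · intro h1
    exact ⟨h1.ne, Or.inl (Or.inl ⟨h, h1⟩)⟩

theorem modi_path {V : Type} (R : SimpleGraph V) (q : Fin 4 → V) (hq : Function.Injective q) :
    IsPath (Modi R q) q := by
  have h01 : q 0 ≠ q 1 := fun h => absurd (hq h) (by decide)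
  have h12 : q 1 ≠ q 2 := fun h => absurd (hq h) (by decide)
  have h23 : q 2 ≠ q 3 := fun h => absurd (hq h) (by decide)
  have h02 : q 0 ≠ q 2 := fun h => absurd (hq h) (by decide)
  have h13 : q 1 ≠ q 3 := fun h => absurd (hq h) (by decide)
  have h03 : q 0 ≠ q 3 := fun h => absurd (hq h) (by decide)
  unfold IsPath Modi
  refine ⟨(SimpleGraph.fromRel_adj _ _ _).2 ⟨h01, Or.inl (Or.inr (Or.inl ⟨rfl, rfl⟩))⟩,
    (SimpleGraph.fromRel_adj _ _ _).2 ⟨h12, Or.inl (Or.inr (Or.inr (Or.inl ⟨rfl, rfl⟩)))⟩,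
    (SimpleGraph.fromRel_adj _ _ _).2 ⟨h23, Or.inl (Or.inr (Or.inr (Or.inr ⟨rfl, rfl⟩)))⟩,
    ?_, ?_, ?_⟩
  · rw [SimpleGraph.fromRel_adj]
    rintro ⟨-, (⟨h, -⟩ | ⟨h1, h2⟩ | ⟨h1, h2⟩ | ⟨h1, h2⟩) |
      (⟨h, -⟩ | ⟨h1, h2⟩ | ⟨h1, h2⟩ | ⟨h1, h2⟩)⟩
    · exact h 0 2 ⟨rfl, rfl⟩
    · exact h12 h2.symm
    · exact h01 h1
    · exact h02 h1
    · exact h 2 0 ⟨rfl, rfl⟩
    · exact h01 h2
    · exact h02 h2
    · exact h03 h2
  · rw [SimpleGraph.fromRel_adj]
    rintro ⟨-, (⟨h, -⟩ | ⟨h1, h2⟩ | ⟨h1, h2⟩ | ⟨h1, h2⟩) |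
      (⟨h, -⟩ | ⟨h1, h2⟩ | ⟨h1, h2⟩ | ⟨h1, h2⟩)⟩
    · exact h 1 3 ⟨rfl, rfl⟩
    · exact h01 h1.symm
    · exact h23 h2.symm
    · exact h12 h1
    · exact h 3 1 ⟨rfl, rfl⟩
    · exact h03 h1.symm
    · exact h12 h2
    · exact h13 h2
  · rw [SimpleGraph.fromRel_adj]
    rintro ⟨-, (⟨h, -⟩ | ⟨h1, h2⟩ | ⟨h1, h2⟩ | ⟨h1, h2⟩) |
      (⟨h, -⟩ | ⟨h1, h2⟩ | ⟨h1, h2⟩ | ⟨h1, h2⟩)⟩
    · exact h 0 3 ⟨rfl, rfl⟩
    · exact h13 h2.symm
    · exact h01 h1
    · exact h02 h1
    · exact h 3 0 ⟨rfl, rfl⟩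
    · exact h01 h2
    · exact h02 h2
    · exact h03 h2

theorem modi_inj {V : Type} (R R' : SimpleGraph V) (q : Fin 4 → V)
    (h1 : Modi R q = Modi R' q) (h2 : R.comap q = R'.comap q) : R = R' := by
  ext u v
  by_cases h : ∃ i j, u = q i ∧ v = q j
  · obtain ⟨i, j, rfl, rfl⟩ := h
    have h3 : (R.comap q).Adj i j ↔ (R'.comap q).Adj i j := by rw [h2]
    simpa using h3
  · push Not at h
    have h' : ∀ i j, ¬ (u = q i ∧ v = q j) := fun i j hh => h i j hh.1 hh.2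
    rw [← modi_off R q u v h', ← modi_off R' q u v h', h1]

/-- the set of graphs without a path on the first `m` quadruples -/
def NP {V : Type} {k : ℕ} (q : Fin k → Fin 4 → V) (m : ℕ) (R : SimpleGraph V) : Prop :=
  ∀ i : Fin k, i.1 < m → ¬ IsPath R (q i)

theorem path_le {V : Type} [Fintype V] {k : ℕ} (q : Fin k → Fin 4 → V)
    (hq : ∀ i j i' j', q i j = q i' j' → i = i' ∧ j = j') (m : ℕ) (hm : m ≤ k) :
    (Nat.card {R : SimpleGraph V // NP q m R} : ℝ) ≤
      (1 - 1 / (Nat.card (SimpleGraph (Fin 4)) : ℝ)) ^ m *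
        (Nat.card (SimpleGraph V) : ℝ) := by
  classical
  have hc : (0 : ℝ) < (Nat.card (SimpleGraph (Fin 4)) : ℝ) := by
    exact_mod_cast Nat.card_pos
  have hc1 : (1 : ℝ) ≤ (Nat.card (SimpleGraph (Fin 4)) : ℝ) := by
    exact_mod_cast Nat.card_pos (α := SimpleGraph (Fin 4))
  have hc2 : 0 ≤ 1 - 1 / (Nat.card (SimpleGraph (Fin 4)) : ℝ) := by
    rw [sub_nonneg, div_le_one hc]
    exact hc1
  induction m with
  | zero =>
    simp only [pow_zero, one_mul]
    exact_mod_cast Nat.card_le_card_of_injective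
      (fun x : {R : SimpleGraph V // NP q 0 R} => x.1) Subtype.val_injective
  | succ m ih =>
    have ih' := ih (by omega)
    let im : Fin k := ⟨m, by omega⟩
    have hqi : Function.Injective (q im) := fun j j' h => (hq _ _ _ _ h).2
    have hsplit : Nat.card {R : SimpleGraph V // NP q m R} =
        Nat.card {R : SimpleGraph V // NP q m R ∧ IsPath R (q im)} +
        Nat.card {R : SimpleGraph V // NP q (m + 1) R} := by
      haveI : Fintype (SimpleGraph V) := Fintype.ofFinite _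
      simp only [Nat.card_eq_fintype_card, Fintype.card_subtype]
      rw [← card_union_of_disjoint]
      · congr 1
        ext R
        simp only [mem_union, mem_filter, mem_univ, true_and]
        constructor
        · intro h
          by_cases h1 : IsPath R (q im)
          · exact Or.inl ⟨h, h1⟩
          · refine Or.inr fun i hi => ?_
            rcases Nat.lt_succ_iff_lt_or_eq.1 hi with h2 | h2
            · exact h i h2
            · have : i = im := Fin.ext h2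
              rw [this]
              exact h1
        · rintro (⟨h, -⟩ | h)
          · exact h
          · exact fun i hi => h i (by omega)
      · rw [disjoint_left]
        intro R h1 h2
        simp only [mem_filter, mem_univ, true_and] at h1 h2
        exact h2 im (Nat.lt_succ_self m) h1.2
    have hinj : Nat.card {R : SimpleGraph V // NP q m R} ≤
        Nat.card {R : SimpleGraph V // NP q m R ∧ IsPath R (q im)} *
        Nat.card (SimpleGraph (Fin 4)) := by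
      rw [← Nat.card_prod]
      have hval : ∀ R : SimpleGraph V, NP q m R → NP q m (Modi R (q im)) := by
        intro R hR i hi hp
        refine hR i hi ?_
        have hne : i ≠ im := by
          intro h
          rw [h] at hi
          exact absurd hi (lt_irrefl _)
        have key : ∀ j j', (Modi R (q im)).Adj (q i j) (q i j') ↔ R.Adj (q i j) (q i j') :=
          fun j j' => modi_off R (q im) _ _ (fun a b hh => hne (hq _ _ _ _ hh.1).1)
        unfold IsPath at hp ⊢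
        simpa only [key] using hp
      refine Nat.card_le_card_of_injective
        (fun x : {R : SimpleGraph V // NP q m R} =>
          ((⟨Modi x.1 (q im), hval x.1 x.2, modi_path x.1 _ hqi⟩ :
            {R : SimpleGraph V // NP q m R ∧ IsPath R (q im)}), x.1.comap (q im))) ?_
      rintro ⟨R, hR⟩ ⟨R', hR'⟩ h
      rw [Prod.mk.injEq] at h
      exact Subtype.ext (modi_inj R R' (q im) (congrArg Subtype.val h.1) h.2)
    have e1 : (Nat.card {R : SimpleGraph V // NP q m R} : ℝ) =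
        (Nat.card {R : SimpleGraph V // NP q m R ∧ IsPath R (q im)} : ℝ) +
        (Nat.card {R : SimpleGraph V // NP q (m + 1) R} : ℝ) := by exact_mod_cast hsplit
    have e2 : (Nat.card {R : SimpleGraph V // NP q m R} : ℝ) ≤
        (Nat.card {R : SimpleGraph V // NP q m R ∧ IsPath R (q im)} : ℝ) *
        (Nat.card (SimpleGraph (Fin 4)) : ℝ) := by exact_mod_cast hinj
    have e3 : (Nat.card {R : SimpleGraph V // NP q m R} : ℝ) *
        (1 / (Nat.card (SimpleGraph (Fin 4)) : ℝ)) ≤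
        (Nat.card {R : SimpleGraph V // NP q m R ∧ IsPath R (q im)} : ℝ) := by
      rw [mul_one_div, div_le_iff₀ hc]
      exact e2
    calc (Nat.card {R : SimpleGraph V // NP q (m + 1) R} : ℝ)
        ≤ (1 - 1 / (Nat.card (SimpleGraph (Fin 4)) : ℝ)) *
          (Nat.card {R : SimpleGraph V // NP q m R} : ℝ) := by linarith
      _ ≤ (1 - 1 / (Nat.card (SimpleGraph (Fin 4)) : ℝ)) *
          ((1 - 1 / (Nat.card (SimpleGraph (Fin 4)) : ℝ)) ^ m *
          (Nat.card (SimpleGraph V) : ℝ)) := mul_le_mul_of_nonneg_left ih' hc2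
      _ = _ := by rw [pow_succ]; ring

end Pool.Agent.W711.MX
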